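import Pool.Agent.Run7.h230.QF.Stm2

/-!
# Project QF of helper230: piece EQV (exact agreement of flats)
-/

set_option autoImplicit false

namespace Run7.h305.QF

open Pool.Agent.Run7.h230.QF
open Pool.Agent.H97R3.VR (IsMedian IsConvex Btw)
open Pool.Agent.TH97.VR (walls)
open Pointwise

variable {V : Type} {k : ℕ} {Γ : SimpleGraph V}

theorem Agree.symm' {f h : (Fin k → ℤ) → V} {R : ℕ} (hf : Agree f h R) : Agree h f R :=
  fun z hz => (hf z hz).symm

theorem Agree.zero' {f h : (Fin k → ℤ) → V} {R : ℕ} (hf : Agree f h R) : f 0 = h 0 :=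
  hf 0 fun i => by simp

theorem Agree.ng' {f h : (Fin k → ℤ) → V} {R : ℕ} (hf : Agree f h R) : Agree (ng f) (ng h) R :=
  fun z hz => hf (-z) fun i => by simpa using hz i

theorem pos_half (hE : S_EQH) (hΓ : IsMedian Γ) (hg : ¬ Grid Γ (k + 1) 1)
    {f₁ f₂ : (Fin k → ℤ) → V} (h1 : IsFlat Γ f₁) (h2 : IsFlat Γ f₂) (ha : Agree f₁ f₂ 1)
    {z w : Fin k → ℤ} (hzw : f₁ z = f₂ w) (i : Fin k) (l : ℤ) (hl : 0 ≤ l) (hlz : l < z i) :
    HS Γ f₁ i l = HS Γ f₂ i l := by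
  refine hE V Γ hΓ k hg f₁ f₂ h1 h2 ha i l hl ⟨⟨w, ?_⟩, 0, ?_⟩ l hl le_rfl
  · rw [← hzw]
    exact (h1.side i l z).2 hlz
  · rw [← Agree.zero' ha]
    intro h
    have := (h1.side i l 0).1 h
    simp at this
    omega

theorem halves (hE : S_EQH) (hΓ : IsMedian Γ) (hg : ¬ Grid Γ (k + 1) 1)
    {f₁ f₂ : (Fin k → ℤ) → V} (h1 : IsFlat Γ f₁) (h2 : IsFlat Γ f₂) (ha : Agree f₁ f₂ 1)
    {z w : Fin k → ℤ} (hzw : f₁ z = f₂ w) (i : Fin k) (l : ℤ)
    (hl : (0 ≤ l ∧ l < z i) ∨ (z i ≤ l ∧ l < 0)) :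
    HS Γ f₁ i l = HS Γ f₂ i l := by
  rcases hl with hl | hl
  · exact pos_half hE hΓ hg h1 h2 ha hzw i l hl.1 hl.2
  · have e := pos_half hE hΓ hg h1.ng h2.ng (Agree.ng' ha) (z := -z) (w := -w)
      (by show f₁ (- -z) = f₂ (- -w); rw [neg_neg, neg_neg]; exact hzw) i (-l - 1)
      (by omega) (by rw [Pi.neg_apply]; omega)
    rw [h1.HS_ng hΓ, h2.HS_ng hΓ] at e
    have e2 := compl_injective e
    have e3 : -(-l - 1) - 1 = l := by ring
    rw [e3] at e2
    exact e2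

theorem coord (hE : S_EQH) (hΓ : IsMedian Γ) (hg : ¬ Grid Γ (k + 1) 1)
    {f₁ f₂ : (Fin k → ℤ) → V} (h1 : IsFlat Γ f₁) (h2 : IsFlat Γ f₂) (ha : Agree f₁ f₂ 1)
    {z w : Fin k → ℤ} (hzw : f₁ z = f₂ w) (i : Fin k) :
    (0 < z i → z i ≤ w i) ∧ (z i < 0 → w i ≤ z i) := by
  constructor
  · intro hz
    have e := halves hE hΓ hg h1 h2 ha hzw i (z i - 1) (Or.inl ⟨by omega, by omega⟩)
    have e1 : f₁ z ∈ HS Γ f₁ i (z i - 1) := (h1.side _ _ _).2 (by omega)
    rw [e, hzw, h2.side] at e1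
    omega
  · intro hz
    have e := halves hE hΓ hg h1 h2 ha hzw i (z i) (Or.inr ⟨le_rfl, hz⟩)
    have e1 : f₁ z ∉ HS Γ f₁ i (z i) := fun h => by
      have := (h1.side _ _ _).1 h
      omega
    rw [e, hzw, h2.side] at e1
    omega

/-- EQV -/
theorem t_EQV : S_EQH → S_EQV := by
  intro hE V Γ hΓ k hg f₁ f₂ h1 h2 ha z w
  constructor
  · intro hzw
    refine ⟨?_, halves hE hΓ hg h1 h2 ha hzw⟩
    funext i
    have a1 := coord hE hΓ hg h1 h2 ha hzw i
    have a2 := coord hE hΓ hg h2 h1 (Agree.symm' ha) hzw.symm i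
    rcases lt_trichotomy (z i) 0 with h | h | h
    · have := a1.2 h
      have := a2.2 (by omega)
      omega
    · rcases lt_trichotomy (w i) 0 with h' | h' | h'
      · have := a2.2 h'
        omega
      · omega
      · have := a2.1 h'
        omega
    · have := a1.1 h
      have := a2.1 (by omega)
      omega
  · rintro ⟨rfl, hH⟩
    by_contra hne
    have h0 := Agree.zero' ha
    obtain ⟨hfin, hcard⟩ := Pool.Agent.TH97.VR.walls_sep hΓ (f₁ z) (f₂ z)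
    have hpos : 0 < Γ.dist (f₁ z) (f₂ z) := by
      rw [Nat.pos_iff_ne_zero]
      intro h
      exact hne ((hΓ.conn.dist_eq_zero_iff).1 h)
    rw [← hcard, Set.ncard_pos hfin] at hpos
    obtain ⟨A, hA, hA1, hA2⟩ := hpos
    by_cases h : f₁ 0 ∈ A
    · obtain ⟨i, j, hj⟩ := h2.sep hΓ (Pool.Agent.TH97.VR.walls_compl hΓ hA) (z := 0) (w := z)
        (fun h3 => h3 (by rw [← h0]; exact h)) hA2
      rcases hj with ⟨e, e1, e2⟩ | ⟨e, e1, e2⟩
      · rw [← hH i j (Or.inl ⟨by simpa using e1, e2⟩)] at e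
        have e3 : f₁ z ∈ HS Γ f₁ i j := (h1.side _ _ _).2 e2
        rw [← e] at e3
        exact e3 hA1
      · rw [← hH i j (Or.inr ⟨e1, by simpa using e2⟩)] at e
        have e3 : f₁ z ∈ (HS Γ f₁ i j)ᶜ := fun h3 => by
          have := (h1.side _ _ _).1 h3
          omega
        rw [← e] at e3
        exact e3 hA1
    · obtain ⟨i, j, hj⟩ := h1.sep hΓ hA (z := 0) (w := z) h hA1
      rcases hj with ⟨e, e1, e2⟩ | ⟨e, e1, e2⟩
      · rw [hH i j (Or.inl ⟨by simpa using e1, e2⟩)] at e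
        apply hA2
        rw [e]
        exact (h2.side _ _ _).2 e2
      · rw [hH i j (Or.inr ⟨e1, by simpa using e2⟩)] at e
        apply hA2
        rw [e]
        intro h3
        have := (h2.side _ _ _).1 h3
        omega

end Run7.h305.QF
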