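import Pool.Agent.Run7.h230.QF.Stm2
import Pool.Agent.Run7.h590.QF.FAM

/-!
# Project QF of helper230: piece CPT (compactness for pairs)
-/

set_option autoImplicit false

namespace Run7.h305.QF

open Pool.Agent.Run7.h230.QF
open Pool.Agent.H97R3.VR (IsMedian IsConvex Btw)
open Pool.Agent.TH97.VR (walls)
open Run7.h590.QF
open Pointwise

/-- CPT -/
theorem t_CPT : S_CPT := by
  intro V G _ _ Γ hA k L hL F₁ F₂ h1 h2 h0
  obtain ⟨K, hK, hGK⟩ := hA.orb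
  choose g hg using fun n => hGK (F₁ n 0)
  obtain ⟨f, hf⟩ := cluster (fun n z => (g n • F₁ n z, g n • F₂ n z))
    (fun z : Fin k → ℤ => {w | ∃ u ∈ K, Γ.dist u w ≤ nrm z} ×ˢ
      {w | ∃ u ∈ K, Γ.dist u w ≤ nrm z})
    (fun z => (ballK_fin hA hK _).prod (ballK_fin hA hK _)) (fun n z =>
      ⟨memball hA (hL.flat _ (h1 n)) (hg n) z,
        memball hA (hL.flat _ (h2 n)) (by rw [← h0 n]; exact hg n) z⟩)
  have key : ∀ R N : ℕ, ∃ n, N ≤ n ∧ ∀ z : Fin k → ℤ, (∀ i, |z i| ≤ (R : ℤ)) →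
      (f z).1 = g n • F₁ n z ∧ (f z).2 = g n • F₂ n z := by
    intro R N
    obtain ⟨n, hn, hn2⟩ := hf _ (win_finite k R) N
    refine ⟨n, hn, fun z h1 => ?_⟩
    rw [← hn2 z h1]
    exact ⟨rfl, rfl⟩
  refine ⟨fun z => (f z).1, ?_, fun z => (f z).2, ?_, fun R m => ?_⟩
  · apply hL.closed
    intro R
    obtain ⟨n, _, hn⟩ := key R 0
    exact ⟨_, hL.smul _ (h1 n) (g n), fun z h1 => (hn z h1).1⟩
  · apply hL.closed
    intro R
    obtain ⟨n, _, hn⟩ := key R 0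
    exact ⟨_, hL.smul _ (h2 n) (g n), fun z h1 => (hn z h1).2⟩
  · obtain ⟨n, hn, hn2⟩ := key R m
    exact ⟨n, hn, g n, fun z hz => (hn2 z hz).1, fun z hz => (hn2 z hz).2⟩

end Run7.h305.QF
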