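import Pool.Agent.Run7.h230.QF.Stm2
import Pool.Agent.Run7.h590.QF.FAM

/-!
# Project QF of helper230: piece DEP (repetitions at the same depth)
-/

set_option autoImplicit false

namespace Run7.h305.QF

open Pool.Agent.Run7.h230.QF
open Pool.Agent.H97R3.VR (IsMedian IsConvex Btw)
open Pool.Agent.TH97.VR (walls)
open Run7.h590.QF
open Pointwise

variable {V : Type} {G : Type} [Group G] [MulAction G V] {Γ : SimpleGraph V} {k : ℕ}

/-- An infinite set of depths such that all the patterns of the members of `T` are equivalent. -/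
theorem dep_set (hA : Act G Γ) (i : Fin k) (R : ℕ) (T : Finset ((Fin k → ℤ) → V))
    (hT : ∀ τ ∈ T, IsFlat Γ τ) :
    ∃ I : Set ℕ, I.Infinite ∧ ∀ a ∈ I, ∀ b ∈ I, ∀ τ ∈ T, ∃ g : G,
      Agree (fun z => g • τ (z + Pi.single i (-(a : ℤ)))) (fun z => τ (z + Pi.single i (-(b : ℤ)))) R := by
  classical
  induction T using Finset.induction_on with
  | empty => exact ⟨Set.univ, Set.infinite_univ, fun a _ b _ τ hτ => absurd hτ (by simp)⟩
  | insert τ₀ T hnot ih =>
    obtain ⟨J, hJ, hJ2⟩ := ih fun τ hτ => hT τ (Finset.mem_insert_of_mem hτ)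
    have _ : Infinite J := hJ.to_subtype
    let e : ℕ ↪o ℕ := Nat.orderEmbeddingOfSet J
    obtain ⟨I, hI, hI2⟩ := t_PIG V G Γ hA k τ₀ (hT τ₀ (Finset.mem_insert_self _ _)) R
      (fun n => Pi.single i (-((e n : ℕ) : ℤ)))
    refine ⟨e '' I, hI.image e.injective.injOn, ?_⟩
    rintro _ ⟨n, hn, rfl⟩ _ ⟨m, hm, rfl⟩ τ hτ
    rcases Finset.mem_insert.1 hτ with rfl | hτ
    · exact hI2 n hn m hm
    · have hr : ∀ n, e n ∈ J := fun n => by
        have := Set.mem_range_self (f := e) n
        rw [Nat.orderEmbeddingOfSet_range] at this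
        exact this
      exact hJ2 _ (hr n) _ (hr m) τ hτ

/-- DEP -/
theorem t_DEP : S_DEP := by
  intro V G _ _ Γ hA k T hT i n M
  obtain ⟨I, hI, hI2⟩ := dep_set hA i (n + M) T hT
  obtain ⟨a, ha⟩ := hI.nonempty
  obtain ⟨b, hb, hab⟩ := hI.exists_gt a
  refine ⟨a, b - a, by omega, fun τ hτ => ?_⟩
  obtain ⟨g, hg⟩ := hI2 a ha b hb τ hτ
  refine ⟨g, fun z hz h1 h2 => ?_⟩
  have e := hg (z + Pi.single i (a : ℤ)) (fun i' => by
    by_cases h : i' = i
    · subst h
      rw [Pi.add_apply, Pi.single_eq_same, abs_le]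
      push_cast
      constructor <;> omega
    · rw [Pi.add_apply, Pi.single_eq_of_ne h, add_zero]
      have := hz i' h
      push_cast
      omega)
  have e1 : z + Pi.single i (a : ℤ) + Pi.single i (-(a : ℤ)) = z := by
    rw [add_assoc, ← Pi.single_add, add_neg_cancel, Pi.single_zero, add_zero]
  have e2 : z + Pi.single i (a : ℤ) + Pi.single i (-(b : ℤ)) = z - Pi.single i ((b - a : ℕ) : ℤ) := by
    rw [add_assoc, ← Pi.single_add, sub_eq_add_neg, ← Pi.single_neg]
    congr 2
    rw [Nat.cast_sub hab.le]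
    ring
  simp only [] at e
  rw [e1, e2] at e
  exact e

end Run7.h305.QF
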